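import Pool.Agent.Lib_helper53.MET.Defs

set_option autoImplicit false

namespace Pool.Agent.MET

theorem xp_add {k : ℕ} (v w : Fin k → ℤ) : (xp (v + w) : L k) = xp v * xp w := by
  simp [xp, AddMonoidAlgebra.single_mul_single]

theorem xp_zero {k : ℕ} : (xp (0 : Fin k → ℤ) : L k) = 1 := rfl

theorem tw_xp {k k' : ℕ} (σ : (Fin k → ℤ) ≃+ (Fin k' → ℤ)) (v : Fin k → ℤ) : tw σ (xp v) = xp (σ v) := by
  simp [tw, xp]

theorem mon_nil (k : ℕ) : mon k [] = 0 := rfl

theorem mon_append (k : ℕ) (u w : Word) : mon k (u ++ w) = mon k u + mon k w := by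
  funext i; simp [mon]

theorem mon_cons (k : ℕ) (p : ℕ × Bool) (w : Word) : mon k (p :: w) = mon k [p] + mon k w := by
  rw [← mon_append]; rfl

/-- the generator; `0` if the index is out of range -/
noncomputable def gen {k b : ℕ} {R : List Rel} (i : ℕ) : PM k b R :=
  if h : i < b then Submodule.Quotient.mk (Pi.single (⟨i, h⟩ : Fin b) 1) else 0

theorem gen_of_le {k b : ℕ} {R : List Rel} {i : ℕ} (h : b ≤ i) : (gen i : PM k b R) = 0 := by
  simp [gen, Nat.not_lt.mpr h]

/-- evaluation of a relation in an abelian group with an action of `ℤ^k` -/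
noncomputable def ev {k : ℕ} {B : Type*} [AddCommGroup B] (ρ : (Fin k → ℤ) → B →+ B) (b : ℕ) (β : ℕ → B)
    (r : Rel) : B :=
  (r.map (fun t => if t.1 < b then sg t.2.1 • ρ (mon k t.2.2) (β t.1) else 0)).sum

/-- multiplication by integers and monomials determines everything -/
theorem L_induction {k : ℕ} {motive : L k → Prop} (a : L k) (h0 : motive 0)
    (hadd : ∀ a b, motive a → motive b → motive (a + b)) (hneg : ∀ a, motive a → motive (-a))
    (hx : ∀ v, motive (xp v)) : motive a := by
  induction a using AddMonoidAlgebra.induction_linear with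
  | zero => exact h0
  | add f g hf hg => exact hadd _ _ hf hg
  | single v r =>
    have key : ∀ r : ℤ, motive (AddMonoidAlgebra.single v r) := by
      intro r
      induction r using Int.induction_on with
      | zero => simpa using h0
      | succ n ih =>
        have : (AddMonoidAlgebra.single v ((n : ℤ) + 1) : L k) = AddMonoidAlgebra.single v (n : ℤ) + xp v := by
          simp [xp, AddMonoidAlgebra.single_add]
        rw [this]; exact hadd _ _ ih (hx v)
      | pred n ih =>
        have : (AddMonoidAlgebra.single v (-(n : ℤ) - 1) : L k)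
            = AddMonoidAlgebra.single v (-(n : ℤ)) + -xp v := by
          rw [sub_eq_add_neg, AddMonoidAlgebra.single_add, xp, ← AddMonoidAlgebra.single_neg (m := v) (r := (1 : ℤ))]
        rw [this]; exact hadd _ _ ih (hneg _ (hx v))
    exact key r

/-- universal property -/
theorem up {k b : ℕ} {R : List Rel} {B : Type*} [AddCommGroup B] (ρ : (Fin k → ℤ) → B →+ B)
    (h0 : ∀ x, ρ 0 x = x) (ha : ∀ v w x, ρ (v + w) x = ρ v (ρ w x)) (β : ℕ → B)
    (hR : ∀ r ∈ R, ev ρ b β r = 0) :
    ∃ f : PM k b R →+ B, (∀ i, i < b → f (gen i) = β i) ∧ ∀ v m, f (xp v • m) = ρ v (f m) := by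
  classical
  let F : Multiplicative (Fin k → ℤ) →* AddMonoid.End B :=
    { toFun := fun v => ρ (Multiplicative.toAdd v)
      map_one' := by ext x; exact h0 x
      map_mul' := fun v w => by ext x; exact ha _ _ x }
  let Λ : L k →ₐ[ℤ] AddMonoid.End B := AddMonoidAlgebra.lift ℤ (AddMonoid.End B) (Fin k → ℤ) F
  let _ : Module (L k) B := Module.compHom B (Λ : L k →+* AddMonoid.End B)
  have hs : ∀ (a : L k) (x : B), a • x = Λ a x := fun a x => rfl
  have hx : ∀ (v : Fin k → ℤ) (x : B), (xp v : L k) • x = ρ v x := by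
    intro v x
    rw [hs]
    have : Λ (xp v) = ρ v := by
      have := AddMonoidAlgebra.lift_single (R := ℤ) (A := AddMonoid.End B) F v (1 : ℤ)
      rw [one_smul] at this
      exact this
    rw [this]; rfl
  let f0 : (Fin b → L k) →ₗ[L k] B := Fintype.linearCombination (L k) (fun i : Fin b => β i)
  have hf0 : ∀ m, f0 m = ∑ i : Fin b, m i • β i := fun m => rfl
  have htm : ∀ t : Term, f0 (tm k b t) = if t.1 < b then sg t.2.1 • ρ (mon k t.2.2) (β t.1) else 0 := by
    intro t
    rw [hf0]
    by_cases h : t.1 < b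
    · rw [if_pos h, Finset.sum_eq_single (⟨t.1, h⟩ : Fin b)]
      · simp only [tm, if_true]
        rw [smul_assoc, hx]
      · intro i _ hi
        have : t.1 ≠ (i : ℕ) := fun hh => hi (Fin.ext hh.symm)
        simp [tm, this]
      · intro hh; exact absurd (Finset.mem_univ _) hh
    · rw [if_neg h]
      apply Finset.sum_eq_zero
      intro i _
      have : t.1 ≠ (i : ℕ) := fun hh => h (hh ▸ i.2)
      simp [tm, this]
  have hrl : ∀ r : Rel, f0 (rl k b r) = ev ρ b β r := by
    intro r
    unfold rl ev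
    rw [map_list_sum, List.map_map]
    congr 1
    apply List.map_congr_left
    intro t _
    exact htm t
  have hle : Submodule.span (L k) {m : Fin b → L k | ∃ r ∈ R, m = rl k b r} ≤ LinearMap.ker f0 := by
    rw [Submodule.span_le]
    rintro m ⟨r, hr, rfl⟩
    rw [SetLike.mem_coe, LinearMap.mem_ker, hrl, hR r hr]
  let f1 : PM k b R →ₗ[L k] B := Submodule.liftQ _ f0 hle
  refine ⟨f1.toAddMonoidHom, ?_, ?_⟩
  · intro i hi
    have h1 : (gen i : PM k b R) = Submodule.Quotient.mk (Pi.single (⟨i, hi⟩ : Fin b) 1) := by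
      simp [gen, hi]
    have h2 : f1 (gen i) = f0 (Pi.single (⟨i, hi⟩ : Fin b) 1) := by rw [h1]; rfl
    change f1 (gen i) = β i
    rw [h2, hf0, Finset.sum_eq_single (⟨i, hi⟩ : Fin b)]
    · simp
    · intro j _ hj
      simp [Pi.single_eq_of_ne hj]
    · intro hh; exact absurd (Finset.mem_univ _) hh
  · intro v m
    change f1 (xp v • m) = ρ v (f1 m)
    rw [map_smul, hx]

theorem pm_closure {k b : ℕ} {R : List Rel} :
    AddSubgroup.closure {m : PM k b R | ∃ (v : Fin k → ℤ) (i : ℕ), i < b ∧ m = xp v • gen i} = ⊤ := by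
  classical
  rw [eq_top_iff]
  intro m _
  obtain ⟨x, rfl⟩ := Submodule.Quotient.mk_surjective _ m
  have hx : x = ∑ i : Fin b, x i • (Pi.single i 1 : Fin b → L k) := by
    funext j
    simp [Finset.sum_apply, Pi.single_apply]
  rw [hx, ← Submodule.mkQ_apply, map_sum]
  apply AddSubgroup.sum_mem
  intro i _
  rw [map_smul]
  have key : ∀ a : L k, a • (gen (i : ℕ) : PM k b R) ∈
      AddSubgroup.closure {m : PM k b R | ∃ (v : Fin k → ℤ) (i : ℕ), i < b ∧ m = xp v • gen i} := by
    intro a
    refine L_induction (motive := fun a => a • (gen (i : ℕ) : PM k b R) ∈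
      AddSubgroup.closure {m : PM k b R | ∃ (v : Fin k → ℤ) (i : ℕ), i < b ∧ m = xp v • gen i}) a ?_ ?_ ?_ ?_
    · rw [zero_smul]; exact AddSubgroup.zero_mem _
    · intro a b ha hb; rw [add_smul]; exact AddSubgroup.add_mem _ ha hb
    · intro a ha; rw [neg_smul]; exact AddSubgroup.neg_mem _ ha
    · intro v; exact AddSubgroup.subset_closure ⟨v, i, i.2, rfl⟩
  have h2 : (gen (i : ℕ) : PM k b R) = Submodule.mkQ _ (Pi.single i 1) := by
    simp [gen, i.2]
  rw [← h2]
  exact key _

theorem pm_induction {k b : ℕ} {R : List Rel} {motive : PM k b R → Prop} (m : PM k b R) (h0 : motive 0)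
    (hadd : ∀ a b, motive a → motive b → motive (a + b)) (hneg : ∀ a, motive a → motive (-a))
    (hx : ∀ (v : Fin k → ℤ) (i : ℕ), i < b → motive (xp v • gen i)) : motive m := by
  have hm : m ∈ AddSubgroup.closure {m : PM k b R | ∃ (v : Fin k → ℤ) (i : ℕ), i < b ∧ m = xp v • gen i} := by
    rw [pm_closure]; trivial
  induction hm using AddSubgroup.closure_induction with
  | mem x hx' => obtain ⟨v, i, hi, rfl⟩ := hx'; exact hx v i hi
  | zero => exact h0
  | add x y _ _ hx hy => exact hadd _ _ hx hy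
  | neg x _ hx => exact hneg _ hx

theorem pm_ext {k b : ℕ} {R : List Rel} {B : Type*} [AddCommGroup B] (f g : PM k b R →+ B)
    (h : ∀ (v : Fin k → ℤ) (i : ℕ), i < b → f (xp v • gen i) = g (xp v • gen i)) : f = g := by
  ext m
  refine pm_induction (motive := fun m => f m = g m) m ?_ ?_ ?_ h
  · rw [map_zero, map_zero]
  · intro a b ha hb; rw [map_add, map_add, ha, hb]
  · intro a ha; rw [map_neg, map_neg, ha]

/-- relations hold in the module -/
theorem pm_rel {k b : ℕ} {R : List Rel} (r : Rel) (hr : r ∈ R) :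
    (r.map (fun t => sg t.2.1 • ((xp (mon k t.2.2) : L k) • (gen t.1 : PM k b R)))).sum = 0 := by
  classical
  have h1 : Submodule.mkQ (Submodule.span (L k) {m : Fin b → L k | ∃ r ∈ R, m = rl k b r}) (rl k b r) = 0 := by
    rw [Submodule.mkQ_apply, Submodule.Quotient.mk_eq_zero]
    exact Submodule.subset_span ⟨r, hr, rfl⟩
  rw [rl, map_list_sum, List.map_map] at h1
  rw [← h1]
  congr 1
  apply List.map_congr_left
  intro t _
  simp only [Function.comp]
  by_cases h : t.1 < b
  · have h2 : tm k b t = sg t.2.1 • ((xp (mon k t.2.2) : L k) • (Pi.single (⟨t.1, h⟩ : Fin b) 1 : Fin b → L k)) := by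
      funext i
      by_cases hi : t.1 = (i : ℕ)
      · have : i = ⟨t.1, h⟩ := Fin.ext hi.symm
        subst this
        simp [tm]
      · have : i ≠ ⟨t.1, h⟩ := fun hh => hi (by rw [hh])
        simp [tm, hi, Pi.single_eq_of_ne this]
    rw [h2, map_zsmul, map_smul]
    simp [gen, h]
  · have h2 : tm k b t = 0 := by
      funext i
      have : t.1 ≠ (i : ℕ) := fun hh => h (hh ▸ i.2)
      simp [tm, this]
    rw [h2, map_zero, gen_of_le (Nat.not_lt.mp h), smul_zero, smul_zero]

/-- the relation `x_j e_i = m e_i` under evaluation -/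
theorem ev_eqn {k b : ℕ} {B : Type*} [AddCommGroup B] (ρ : (Fin k → ℤ) → B →+ B) (β : ℕ → B)
    (h0 : ∀ x, ρ 0 x = x) (j i m : ℕ) (hi : i < b) :
    ev ρ b β (eqn j i m) = ρ (mon k [(j, true)]) (β i) - m • β i := by
  simp only [ev, eqn, List.map_cons, List.map_replicate, List.sum_cons, List.sum_replicate, hi, if_true,
    mon_nil, h0]
  simp [sg, sub_eq_add_neg]

/-- the relation `x_j e_i = m e_i` in the module -/
theorem pm_eqn {k b : ℕ} {R : List Rel} (j i m : ℕ) (h : eqn j i m ∈ R) :
    (xp (mon k [(j, true)]) : L k) • (gen i : PM k b R) = m • gen i := by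
  have := pm_rel (k := k) (b := b) (eqn j i m) h
  simp only [eqn, List.map_cons, List.map_replicate, List.sum_cons, List.sum_replicate, mon_nil, xp_zero,
    one_smul] at this
  simp only [sg, if_true, one_smul, Bool.false_eq_true, if_false, neg_smul, smul_neg] at this
  rw [← sub_eq_add_neg, sub_eq_zero] at this
  exact this

theorem mon_single (k j : ℕ) (h : j < k) : mon k [(j, true)] = Pi.single (⟨j, h⟩ : Fin k) 1 := by
  funext i
  by_cases hi : j = (i : ℕ)
  · have : i = ⟨j, h⟩ := Fin.ext hi.symm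
    subst this
    simp [mon]
  · have : i ≠ ⟨j, h⟩ := fun hh => hi (by rw [hh])
    simp [mon, hi, Pi.single_eq_of_ne this]

end Pool.Agent.MET
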