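import Pool.Agent.Lib_helper53.MET.Defs

set_option autoImplicit false

namespace Pool.Agent.MET

namespace CompAux

variable {α β σ τ : Type*} [Primcodable α] [Primcodable β] [Primcodable σ] [Primcodable τ]

theorem p_id : Primrec (fun a : α => a) := Primrec.id
theorem p_const (c : σ) : Primrec (fun _ : α => c) := Primrec.const c
theorem p_fst {f : α → σ × τ} (h : Primrec f) : Primrec (fun a => (f a).1) := Primrec.fst.comp h
theorem p_snd {f : α → σ × τ} (h : Primrec f) : Primrec (fun a => (f a).2) := Primrec.snd.comp h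
theorem p_pair {f : α → σ} {g : α → τ} (hf : Primrec f) (hg : Primrec g) : Primrec (fun a => (f a, g a)) :=
  hf.pair hg
theorem p_cons {f : α → σ} {g : α → List σ} (hf : Primrec f) (hg : Primrec g) :
    Primrec (fun a => f a :: g a) := Primrec.list_cons.comp hf hg
theorem p_append {f g : α → List σ} (hf : Primrec f) (hg : Primrec g) :
    Primrec (fun a => f a ++ g a) := Primrec.list_append.comp hf hg
theorem p_map {f : α → List β} {g : α → β → σ} (hf : Primrec f) (hg : Primrec (fun x : α × β => g x.1 x.2)) :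
    Primrec (fun a => (f a).map (fun b => g a b)) := Primrec.list_map hf hg
theorem p_flatMap {f : α → List β} {g : α → β → List σ} (hf : Primrec f)
    (hg : Primrec (fun x : α × β => g x.1 x.2)) :
    Primrec (fun a => (f a).flatMap (fun b => g a b)) := Primrec.list_flatMap hf hg
theorem p_range {f : α → ℕ} (hf : Primrec f) : Primrec (fun a => List.range (f a)) := Primrec.list_range.comp hf
theorem p_add {f g : α → ℕ} (hf : Primrec f) (hg : Primrec g) : Primrec (fun a => f a + g a) :=
  Primrec.nat_add.comp hf hg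
theorem p_mul {f g : α → ℕ} (hf : Primrec f) (hg : Primrec g) : Primrec (fun a => f a * g a) :=
  Primrec.nat_mul.comp hf hg
theorem p_not {f : α → Bool} (hf : Primrec f) : Primrec (fun a => !(f a)) := Primrec.not.comp hf
theorem p_rev {f : α → List σ} (hf : Primrec f) : Primrec (fun a => (f a).reverse) := Primrec.list_reverse.comp hf
theorem p_len {f : α → List σ} (hf : Primrec f) : Primrec (fun a => (f a).length) := Primrec.list_length.comp hf
theorem p_getD {f : α → List σ} {g : α → ℕ} (d : σ) (hf : Primrec f) (hg : Primrec g) :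
    Primrec (fun a => (f a).getD (g a) d) := (Primrec.list_getD d).comp hf hg
theorem p_rep {f : α → ℕ} {g : α → σ} (hf : Primrec f) (hg : Primrec g) :
    Primrec (fun a => List.replicate (f a) (g a)) := by
  have : Primrec (fun a => (List.range (f a)).map (fun _ => g a)) := p_map (p_range hf) (hg.comp Primrec.fst)
  refine this.of_eq (fun a => ?_)
  simp [List.map_const']
theorem p_iteb {c : α → Bool} {f g : α → σ} (hc : Primrec c) (hf : Primrec f) (hg : Primrec g) :
    Primrec (fun a => if c a = true then f a else g a) := by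
  have := Primrec.cond hc hf hg
  refine this.of_eq (fun a => ?_)
  cases c a <;> rfl
theorem p_itelt {c d : α → ℕ} {f g : α → σ} (hc : Primrec c) (hd : Primrec d) (hf : Primrec f) (hg : Primrec g) :
    Primrec (fun a => if c a < d a then f a else g a) := Primrec.ite (Primrec.nat_lt.comp hc hd) hf hg
theorem p_iteq {c d : α → ℕ} {f g : α → σ} (hc : Primrec c) (hd : Primrec d) (hf : Primrec f) (hg : Primrec g) :
    Primrec (fun a => if c a = d a then f a else g a) := Primrec.ite (Primrec.eq.comp hc hd) hf hg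

theorem p_sh {f : α → ℕ} {g : α → Word} (hf : Primrec f) (hg : Primrec g) :
    Primrec (fun a => sh (f a) (g a)) := by
  have : Primrec (fun x : ℕ × Word => x.2.map (fun p => (p.1 + x.1, p.2))) :=
    p_map (p_snd p_id) (p_pair (p_add (p_fst (p_snd p_id)) (p_fst (p_fst p_id))) (p_snd (p_snd p_id)))
  exact this.comp (hf.pair hg)

theorem p_shr {f g : α → ℕ} {r : α → Rel} (hf : Primrec f) (hg : Primrec g) (hr : Primrec r) :
    Primrec (fun a => shr (f a) (g a) (r a)) := by
  have : Primrec (fun x : ℕ × ℕ × Rel => x.2.2.map (fun t => (t.1 + x.1, t.2.1, sh x.2.1 t.2.2))) :=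
    p_map (p_snd (p_snd p_id)) (p_pair (p_add (p_fst (p_snd p_id)) (p_fst (p_fst p_id))) (p_pair (p_fst (p_snd
      (p_snd p_id))) (p_sh (p_fst (p_snd (p_fst p_id))) (p_snd (p_snd (p_snd p_id))))))
  exact this.comp (hf.pair (hg.pair hr))

theorem p_eqn {f g h : α → ℕ} (hf : Primrec f) (hg : Primrec g) (hh : Primrec h) :
    Primrec (fun a => eqn (f a) (g a) (h a)) := by
  have : Primrec (fun x : ℕ × ℕ × ℕ =>
      (((x.2.1, true, [(x.1, true)]) :: List.replicate x.2.2 (x.2.1, false, [])) : Rel)) :=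
    p_cons (p_pair (p_fst (p_snd p_id)) (p_pair (p_const true) (p_cons (p_pair (p_fst p_id) (p_const true))
      (p_const [])))) (p_rep (p_snd (p_snd p_id)) (p_pair (p_fst (p_snd p_id)) (p_pair (p_const false) (p_const
      []))))
  exact this.comp (hf.pair (hg.pair hh))

theorem p_winv {f : α → Word} (hf : Primrec f) : Primrec (fun a => winv (f a)) := by
  have : Primrec (fun w : Word => (w.map (fun p => (p.1, !p.2))).reverse) :=
    p_rev (p_map p_id (p_pair (p_fst (p_snd p_id)) (p_not (p_snd (p_snd p_id)))))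
  exact this.comp hf

theorem p_cw {f g : α → Word} (hf : Primrec f) (hg : Primrec g) : Primrec (fun a => cw (f a) (g a)) :=
  p_append (p_append (p_append hf hg) (p_winv hf)) (p_winv hg)

theorem fox_eq (w : Word) : fox w = w.foldr (fun p r =>
    (if p.2 = true then (p.1 + 2, true, []) else (p.1 + 2, false, [(p.1 + 2, false)])) ::
      r.map (fun t => (t.1, t.2.1, (p.1 + 2, p.2) :: t.2.2))) [] := by
  induction w with
  | nil => rfl
  | cons p w ih => rw [List.foldr_cons, ← ih]; rfl

theorem p_fox {f : α → Word} (hf : Primrec f) : Primrec (fun a => fox (f a)) := by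
  have : Primrec fox := by
    have h1 : Primrec (fun y : Word × ((ℕ × Bool) × Rel) =>
        ((if y.2.1.2 = true then (y.2.1.1 + 2, true, []) else (y.2.1.1 + 2, false, [(y.2.1.1 + 2, false)])) ::
          y.2.2.map (fun t => (t.1, t.2.1, (y.2.1.1 + 2, y.2.1.2) :: t.2.2)) : Rel)) :=
      p_cons (p_iteb (p_snd (p_fst (p_snd p_id))) (p_pair (p_add (p_fst (p_fst (p_snd p_id))) (p_const 2))
        (p_pair (p_const true) (p_const []))) (p_pair (p_add (p_fst (p_fst (p_snd p_id))) (p_const 2)) (p_pair
        (p_const false) (p_cons (p_pair (p_add (p_fst (p_fst (p_snd p_id))) (p_const 2)) (p_const false))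
        (p_const []))))) (p_map (p_snd (p_snd p_id)) (p_pair (p_fst (p_snd p_id)) (p_pair (p_fst (p_snd (p_snd
        p_id))) (p_cons (p_pair (p_add (p_fst (p_fst (p_snd (p_fst p_id)))) (p_const 2)) (p_snd (p_fst (p_snd
        (p_fst p_id))))) (p_snd (p_snd (p_snd p_id)))))))
    have h : Primrec (fun w : Word => w.foldr (fun p r =>
      (if p.2 = true then ((p.1 + 2, true, []) : Term) else (p.1 + 2, false, [(p.1 + 2, false)])) ::
      r.map (fun t => (t.1, t.2.1, (p.1 + 2, p.2) :: t.2.2))) ([] : Rel)) :=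
      Primrec.list_foldr (α := Word) (β := ℕ × Bool) (σ := Rel) (f := fun w => w) (g := fun _ => [])
        (h := fun (_ : Word) (x : (ℕ × Bool) × Rel) =>
        (if x.1.2 = true then ((x.1.1 + 2, true, []) : Term) else (x.1.1 + 2, false, [(x.1.1 + 2, false)])) ::
        x.2.map (fun t : Term => ((t.1, t.2.1, (x.1.1 + 2, x.1.2) :: t.2.2) : Term))) Primrec.id (Primrec.const []) h1
    exact h.of_eq (fun w => (fox_eq w).symm)
  exact this.comp hf

theorem p_fit {f g : α → ℕ} {r : α → List Rel} (hf : Primrec f)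
    (hg : Primrec g) (hr : Primrec r) : Primrec (fun a => fit (f a) (g a) (r a)) := by
  have : Primrec (fun x : ℕ × ℕ × List Rel => fit x.1 x.2.1 x.2.2) := by
    unfold fit
    exact p_append (p_flatMap (p_range (p_len (p_snd (p_snd p_id)))) (p_flatMap (p_getD [] (p_snd (p_snd (p_fst
      p_id))) (p_snd p_id)) (p_itelt (p_fst (p_snd p_id)) (p_fst (p_fst (p_fst p_id))) (p_cons (p_pair (p_fst
      (p_snd p_id)) (p_pair (p_add (p_add (p_fst (p_fst (p_fst p_id))) (p_fst (p_snd (p_fst (p_fst p_id)))))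
      (p_snd (p_fst p_id))) (p_pair (p_fst (p_snd (p_snd p_id))) (p_snd (p_snd (p_snd p_id)))))) (p_const []))
      (p_const [])))) (p_map (p_range (p_fst (p_snd p_id))) (p_pair (p_add (p_fst (p_fst p_id)) (p_snd p_id))
      (p_pair (p_add (p_add (p_add (p_fst (p_fst p_id)) (p_fst (p_snd (p_fst p_id)))) (p_len (p_snd (p_snd
      (p_fst p_id))))) (p_snd p_id)) (p_pair (p_const true) (p_const [])))))
  exact this.comp (hf.pair (hg.pair hr))

end CompAux

open CompAux

/-- C1 -/
theorem c_metFr : Primrec (fun p : GCode × ℕ => metFr p.1 p.2) := by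
  unfold metFr
  exact p_pair (p_add (p_fst (p_fst p_id)) (p_snd p_id)) (p_pair (p_add (p_fst (p_fst p_id)) (p_const 2))
    (p_append (p_append (p_append (p_append (p_append (p_map (p_snd (p_fst p_id)) (p_fox (p_snd p_id)))
    (p_flatMap (p_snd (p_fst p_id)) (p_map (p_range (p_add (p_fst (p_fst (p_fst p_id))) (p_const 2))) (p_cons
    (p_pair (p_snd p_id) (p_pair (p_const true) (p_sh (p_const 2) (p_snd (p_fst p_id))))) (p_cons (p_pair (p_snd
    p_id) (p_pair (p_const false) (p_const []))) (p_const [])))))) (p_flatMap (p_range (p_snd p_id)) (p_map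
    (p_range (p_add (p_fst (p_fst (p_fst p_id))) (p_const 2))) (p_eqn (p_add (p_add (p_fst (p_fst (p_fst (p_fst
    p_id)))) (p_snd (p_fst p_id))) (p_const 2)) (p_snd p_id) (p_const 1))))) (p_map (p_range (p_fst (p_fst
    p_id))) (p_cons (p_pair (p_add (p_snd p_id) (p_const 2)) (p_pair (p_const true) (p_cons (p_pair (p_const 0)
    (p_const true)) (p_const [])))) (p_cons (p_pair (p_add (p_snd p_id) (p_const 2)) (p_pair (p_const false)
    (p_const []))) (p_cons (p_pair (p_const 1) (p_pair (p_const false) (p_cons (p_pair (p_add (p_snd p_id)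
    (p_const 2)) (p_const true)) (p_const [])))) (p_cons (p_pair (p_const 1) (p_pair (p_const true) (p_const
    []))) (p_const []))))))) (p_map (p_range (p_fst (p_fst p_id))) (p_eqn (p_const 1) (p_add (p_snd p_id)
    (p_const 2)) (p_const 1)))) (p_const _)))

/-- C2 -/
theorem c_semiFr : Primrec semiFr := by
  unfold semiFr
  exact p_pair (p_fst p_id) (p_pair (p_fst (p_snd p_id)) (p_append (p_append (p_map (p_snd (p_snd p_id)) (p_shr
    (p_const 0) (p_const 2) (p_snd p_id))) (p_map (p_range (p_fst (p_snd p_id))) (p_eqn (p_const 0) (p_snd p_id)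
    (p_const 1)))) (p_map (p_range (p_fst (p_snd p_id))) (p_eqn (p_const 1) (p_snd p_id) (p_const 1)))))

/-- C3 -/
theorem c_simFr : Primrec (fun p : ℕ × ℕ × Ent => simFr p.1 p.2.1 p.2.2) := by
  unfold simFr
  exact p_pair (p_fst p_id) (p_pair (p_mul (p_const 2) (p_fst (p_snd p_id))) (p_append (p_append (p_append
    (p_map (p_range (p_fst (p_snd p_id))) (p_cons (p_pair (p_mul (p_const 2) (p_snd p_id)) (p_pair (p_const
    true) (p_cons (p_pair (p_const 0) (p_const true)) (p_const [])))) (p_cons (p_pair (p_mul (p_const 2) (p_snd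
    p_id)) (p_pair (p_const false) (p_const []))) (p_cons (p_pair (p_add (p_mul (p_const 2) (p_snd p_id))
    (p_const 1)) (p_pair (p_const false) (p_const []))) (p_const []))))) (p_map (p_range (p_fst (p_snd p_id)))
    (p_eqn (p_const 0) (p_add (p_mul (p_const 2) (p_snd p_id)) (p_const 1)) (p_const 1)))) (p_map (p_range
    (p_fst (p_snd p_id))) (p_append (p_cons (p_pair (p_mul (p_const 2) (p_snd p_id)) (p_pair (p_const true)
    (p_cons (p_pair (p_const 1) (p_const true)) (p_const [])))) (p_cons (p_pair (p_mul (p_const 2) (p_snd p_id))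
    (p_pair (p_const false) (p_const []))) (p_const []))) (p_flatMap (p_snd (p_snd (p_fst p_id))) (p_iteq (p_fst
    (p_snd (p_snd p_id))) (p_snd (p_fst p_id)) (p_cons (p_pair (p_add (p_mul (p_const 2) (p_fst (p_snd p_id)))
    (p_const 1)) (p_pair (p_not (p_fst (p_snd (p_snd (p_snd p_id))))) (p_sh (p_const 2) (p_snd (p_snd (p_snd
    (p_snd p_id))))))) (p_const [])) (p_const [])))))) (p_map (p_range (p_fst (p_snd p_id))) (p_eqn (p_const 1)
    (p_add (p_mul (p_const 2) (p_snd p_id)) (p_const 1)) (p_const 1)))))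

/-- C4 -/
theorem c_linFr : Primrec (fun p : ℕ × ℕ × List Rel => linFr p.1 p.2.1 p.2.2) := by
  unfold linFr
  exact p_pair (p_fst p_id) (p_pair (p_add (p_fst (p_snd p_id)) (p_const 2)) (p_append (p_append (p_append
    (p_map (p_snd (p_snd p_id)) (p_shr (p_const 2) (p_const 2) (p_snd p_id))) (p_map (p_range (p_fst (p_snd
    p_id))) (p_eqn (p_const 0) (p_add (p_snd p_id) (p_const 2)) (p_const 1)))) (p_map (p_range (p_fst (p_snd
    p_id))) (p_eqn (p_const 1) (p_add (p_snd p_id) (p_const 2)) (p_const 1)))) (p_cons (p_const _) (p_cons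
    (p_const _) (p_cons (p_const _) (p_cons (p_append (p_const _) (p_flatMap (p_range (p_fst p_id)) (p_rep
    (p_add (p_snd p_id) (p_const 1)) (p_pair (p_const 1) (p_pair (p_const false) (p_cons (p_pair (p_add (p_snd
    p_id) (p_const 2)) (p_const true)) (p_const []))))))) (p_const [])))))))

/-- C5 -/
theorem c_pin : Primrec pin := by
  unfold pin
  exact p_pair (p_add (p_fst p_id) (p_const 3)) (p_pair (p_add (p_fst (p_snd p_id)) (p_const 2)) (p_append
    (p_append (p_append (p_map (p_snd (p_snd p_id)) (p_shr (p_const 2) (p_const 1) (p_snd p_id))) (p_map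
    (p_range (p_fst (p_snd p_id))) (p_eqn (p_const 0) (p_add (p_snd p_id) (p_const 2)) (p_const 1)))) (p_const
    _)) (p_map (p_range (p_fst p_id)) (p_eqn (p_add (p_snd p_id) (p_const 3)) (p_const 1) (p_const 1)))))

/-- C6 -/
theorem c_grp : Primrec grp := by
  unfold grp
  exact p_pair (p_add (p_fst (p_snd p_id)) (p_fst p_id)) (p_append (p_append (p_append (p_flatMap (p_range
    (p_fst p_id)) (p_map (p_range (p_fst (p_fst p_id))) (p_cw (p_cons (p_pair (p_add (p_fst (p_snd (p_fst (p_fst
    p_id)))) (p_snd (p_fst p_id))) (p_const true)) (p_const [])) (p_cons (p_pair (p_add (p_fst (p_snd (p_fst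
    (p_fst p_id)))) (p_snd p_id)) (p_const true)) (p_const []))))) (p_flatMap (p_range (p_fst (p_snd p_id)))
    (p_map (p_range (p_fst (p_snd (p_fst p_id)))) (p_cw (p_cons (p_pair (p_snd (p_fst p_id)) (p_const true))
    (p_const [])) (p_cons (p_pair (p_snd p_id) (p_const true)) (p_const [])))))) (p_flatMap (p_range (p_fst
    (p_snd p_id))) (p_flatMap (p_range (p_fst (p_snd (p_fst p_id)))) (p_map (p_range (p_fst (p_fst (p_fst
    p_id)))) (p_cw (p_cons (p_pair (p_snd (p_fst (p_fst p_id))) (p_const true)) (p_const [])) (p_cw (p_cons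
    (p_pair (p_snd (p_fst p_id)) (p_const true)) (p_const [])) (p_cons (p_pair (p_add (p_fst (p_snd (p_fst
    (p_fst (p_fst p_id))))) (p_snd p_id)) (p_const true)) (p_const [])))))))) (p_map (p_snd (p_snd p_id))
    (p_flatMap (p_snd p_id) (p_itelt (p_fst (p_snd p_id)) (p_fst (p_snd (p_fst (p_fst p_id)))) (p_append (p_sh
    (p_fst (p_snd (p_fst (p_fst p_id)))) (p_snd (p_snd (p_snd p_id)))) (p_cons (p_pair (p_fst (p_snd p_id))
    (p_fst (p_snd (p_snd p_id)))) (p_winv (p_sh (p_fst (p_snd (p_fst (p_fst p_id)))) (p_snd (p_snd (p_snd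
    p_id))))))) (p_const [])))))

/-- C7 -/
theorem c_rng : Primrec rng := by
  unfold rng
  exact p_pair (p_add (p_fst (p_snd p_id)) (p_mul (p_const 2) (p_fst p_id))) (p_append (p_append (p_map (p_range
    (p_fst p_id)) (p_cons (p_pair (p_const true) (p_cons (p_add (p_fst (p_snd (p_fst p_id))) (p_mul (p_const 2)
    (p_snd p_id))) (p_cons (p_add (p_add (p_fst (p_snd (p_fst p_id))) (p_mul (p_const 2) (p_snd p_id))) (p_const
    1)) (p_const [])))) (p_cons (p_pair (p_const false) (p_const [])) (p_const [])))) (p_flatMap (p_range (p_fst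
    (p_snd p_id))) (p_map (p_range (p_fst (p_snd (p_fst p_id)))) (p_cons (p_pair (p_const true) (p_cons (p_snd
    (p_fst p_id)) (p_cons (p_snd p_id) (p_const [])))) (p_const []))))) (p_map (p_snd (p_snd p_id)) (p_flatMap
    (p_snd p_id) (p_itelt (p_fst (p_snd p_id)) (p_fst (p_snd (p_fst (p_fst p_id)))) (p_cons (p_pair (p_fst
    (p_snd (p_snd p_id))) (p_cons (p_fst (p_snd p_id)) (p_map (p_snd (p_snd (p_snd p_id))) (p_iteb (p_snd (p_snd
    p_id)) (p_add (p_fst (p_snd (p_fst (p_fst (p_fst p_id))))) (p_mul (p_const 2) (p_fst (p_snd p_id)))) (p_add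
    (p_add (p_fst (p_snd (p_fst (p_fst (p_fst p_id))))) (p_mul (p_const 2) (p_fst (p_snd p_id)))) (p_const
    1)))))) (p_const [])) (p_const [])))))

/-- C8 -/
theorem c_simOf : Primrec simOf := by
  unfold simOf
  exact p_iteq (p_fst (p_fst p_id)) (p_fst (p_snd p_id)) (p_pair (p_fst (p_fst p_id)) (p_pair (p_add (p_add
    (p_fst (p_snd (p_fst p_id))) (p_fst (p_snd (p_snd p_id)))) (p_add (p_add (p_add (p_len (p_snd (p_snd (p_fst
    p_id)))) (p_fst (p_snd (p_snd p_id)))) (p_len (p_snd (p_snd (p_snd p_id))))) (p_fst (p_snd (p_fst p_id)))))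
    (p_pair (p_fit (p_fst (p_snd (p_fst p_id))) (p_fst (p_snd (p_snd p_id))) (p_snd (p_snd (p_fst p_id))))
    (p_fit (p_fst (p_snd (p_snd p_id))) (p_fst (p_snd (p_fst p_id))) (p_snd (p_snd (p_snd p_id))))))) (p_const
    _)

end Pool.Agent.MET
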