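import Pool.Agent.Lib_helper53.MET.DefsE
import Pool.Agent.Lib_helper53.MET.Comp

set_option autoImplicit false

namespace Pool.Agent.MET

open CompAux

/-- C9 -/
theorem c_sgFr : Primrec sgFr := by
  unfold sgFr
  exact p_pair (p_add (p_fst p_id) (p_const 1)) (p_pair (p_add (p_fst (p_snd p_id)) (p_const 1)) (p_append
    (p_append (p_append (p_append (p_map (p_snd (p_snd p_id)) (p_shr (p_const 1) (p_const 3) (p_snd p_id)))
    (p_map (p_range (p_fst (p_snd p_id))) (p_cons (p_pair (p_add (p_snd p_id) (p_const 1)) (p_pair (p_const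
    true) (p_cons (p_pair (p_const 2) (p_const true)) (p_const [])))) (p_cons (p_pair (p_add (p_snd p_id)
    (p_const 1)) (p_pair (p_const true) (p_const []))) (p_const []))))) (p_map (p_range (p_fst (p_snd p_id)))
    (p_eqn (p_const 0) (p_add (p_snd p_id) (p_const 1)) (p_const 1)))) (p_map (p_range (p_fst (p_snd p_id)))
    (p_eqn (p_const 1) (p_add (p_snd p_id) (p_const 1)) (p_const 1)))) (p_const _)))

end Pool.Agent.MET
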