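import Pool.Agent.Lib_helper53.MET.Main
import Pool.Agent.Lib_helper53.MET.CompE
import Pool.Agent.Lib_helper73.MET.E1
import Pool.Agent.Lib_helper72.MET.E2a
import Pool.Agent.Lib_helper75.MET.E2b

set_option autoImplicit false

namespace Pool.Agent.MET

theorem splitRing_signed (p : MCode × MCode) : SplitRingIso p ↔ SignedIso p := by
  obtain ⟨D⟩ := r7a p.1
  obtain ⟨D'⟩ := r7a p.2
  constructor
  · rintro ⟨e⟩
    exact r7b D D' e
  · rintro ⟨σ, ε, φ, h1, h2, h⟩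
    exact r7d D D' σ ε φ h1 h2 h

theorem met_le_splitRing : MetIso ≤₀ SplitRingIso :=
  ⟨fun p => pp (g1 p), (c_pp.comp c_g1).to_comp, fun p => (met_fr p).trans (fr_ring (g1 p))⟩

theorem splitRing_le_met : SplitRingIso ≤₀ MetIso :=
  ⟨fun p => gp (pp (sgFr p.1, sgFr p.2)),
    (c_gp.comp (c_pp.comp ((c_sgFr.comp Primrec.fst).pair (c_sgFr.comp Primrec.snd)))).to_comp,
    fun p => (splitRing_signed p).trans (Iff.trans ⟨e2a p, e2b p⟩ (fr_met (sgFr p.1, sgFr p.2)))⟩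

end Pool.Agent.MET
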