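import Pool.Agent.Lib_helper53.MET.Stmt
import Pool.Agent.Lib_helper53.MET.MainE

set_option autoImplicit false

namespace Pool.Agent.MET.Bridge

open Pool.Agent.MET

theorem met_iff (p : GCode × GCode) : Stmt.MetabelianIso p ↔ MetIso p := Iff.rfl

theorem semi_iff (p : MCode × MCode) : Stmt.SemiIso p ↔ SemiIso p := Iff.rfl

theorem lin_iff (p : ℕ × (ℕ × List Rel) × (ℕ × List Rel)) : Stmt.LinIso p ↔ LinIso p := Iff.rfl

theorem ring_iff (p : RCode × RCode) : Stmt.RingIso p ↔ RingIso p := Iff.rfl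

theorem split_iff (p : MCode × MCode) : Stmt.SplitRingIso p ↔ SplitRingIso p := Iff.rfl

theorem sim_iff' (p : SCode) : Stmt.Similar p ↔ Sim p := Iff.rfl

theorem tfs_iff (G : Type) [Group G] : Stmt.TorsionFreeSplit G ↔ TorsionFreeSplit G := Iff.rfl

end Pool.Agent.MET.Bridge
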