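import Pool.Agent.Lib_helper53.MET.Bridge

/-!
# MP_760942_al: conjugacy in `GL_m(L_k) ⋊ GL_k(ℤ)`
-/

set_option autoImplicit false

namespace Pool.Agent.MET

open Stmt (change ConjGL)

section
variable {k m : ℕ}

theorem usq_key (N : Matrix (Fin m) (Fin m) (L k)) (hN : N * N = 0) :
    (1 + N) * (1 - N) = 1 ∧ (1 - N) * (1 + N) = 1 := by
  constructor
  · noncomm_ring; simp [hN]
  · noncomm_ring; simp [hN]

/-- the unit `1 + N` -/
noncomputable def usq (N : Matrix (Fin m) (Fin m) (L k)) (hN : N * N = 0) : GL (Fin m) (L k) :=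
  ⟨1 + N, 1 - N, (usq_key N hN).1, (usq_key N hN).2⟩

theorem usq_map (N : Matrix (Fin m) (Fin m) (L k)) (σ : (Fin k → ℤ) ≃+ (Fin k → ℤ)) :
    (1 + N).map (change σ) = 1 + N.map (change σ) := by
  rw [Matrix.map_add _ (map_add (change σ))]
  congr 1
  exact Matrix.map_one _ (map_zero _) (map_one _)

theorem usq_conj (M N : Matrix (Fin m) (Fin m) (L k)) (hM : M * M = 0) (hN : N * N = 0) :
    (∃ (σ : (Fin k → ℤ) ≃+ (Fin k → ℤ)) (U : GL (Fin m) (L k)), U.val * M.map (change σ) = N * U.val) ↔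
      ConjGL (usq M hM) (usq N hN) := by
  apply exists_congr; intro σ
  apply exists_congr; intro U
  rw [eq_mul_inv_iff_mul_eq, Units.ext_iff]
  have h1 : (Units.map (change σ).toRingHom.mapMatrix.toMonoidHom (usq M hM)).val = 1 + M.map (change σ) :=
    usq_map M σ
  have h2 : (usq N hN).val = 1 + N := rfl
  rw [Units.val_mul, Units.val_mul, h1, h2, mul_add, add_mul, mul_one, one_mul, add_right_inj]
  exact eq_comm

end

theorem uni_spec (k m : ℕ) (A B : Ent) (hA : Stmt.SqZero k m A) (hB : Stmt.SqZero k m B) :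
    Stmt.Similar (k, m, A, B) ↔ Stmt.Conjugate (k, m, A, B) := by
  refine (usq_conj (Stmt.matrix k m A) (Stmt.matrix k m B) hA hB).trans ⟨fun h => ?_, ?_⟩
  · exact ⟨usq _ hA, usq _ hB, rfl, rfl, h⟩
  · rintro ⟨a', b', ha, hb, h⟩
    have h1 : a' = usq _ hA := Units.ext ha
    have h2 : b' = usq _ hB := Units.ext hb
    rw [h1, h2] at h
    exact h

theorem square_zero : ∃ f : GCode × GCode → SCode, Computable f ∧ ∀ p,
    Stmt.SquareZero (f p) ∧ (MetIso p ↔ Stmt.Similar (f p)) ∧ (MetIso p ↔ Stmt.Conjugate (f p)) := by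
  refine ⟨f1, c_f1.to_comp, fun p => ?_⟩
  obtain ⟨hA, hB⟩ := r8c (pp (g1 p))
  exact ⟨⟨hA, hB⟩, f1_spec p, (f1_spec p).trans (uni_spec _ _ _ _ hA hB)⟩

end Pool.Agent.MET
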