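import Mathlib

/-!
# MP_760942_al: the isomorphism problem for finitely generated metabelian groups, definitions
-/

set_option autoImplicit false

namespace Pool.Agent.MET

/-! ## Codes -/

/-- a word: letters `(index, sign)`; letters with an index out of range are ignored -/
abbrev Word := List (ℕ × Bool)

/-- a term `± x^w e_i`: generator `i`, sign, word `w` -/
abbrev Term := ℕ × Bool × Word

/-- a relation: the sum of its terms is zero -/
abbrev Rel := List Term

/-- a module: `k` variables, `b` generators, relations -/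
abbrev MCode := ℕ × ℕ × List Rel

/-- a matrix: entries `(row, column, sign, word)`, entries at the same place are added -/
abbrev Ent := List (ℕ × ℕ × Bool × Word)

/-- `k` variables, size `m`, two matrices -/
abbrev SCode := ℕ × ℕ × Ent × Ent

/-- a group: `n` generators, relators -/
abbrev GCode := ℕ × List Word

/-- a commutative ring: `r` variables, relations: lists of signed monomials -/
abbrev RCode := ℕ × List (List (Bool × List ℕ))

/-! ## Meaning of the codes -/

/-- the Laurent polynomial ring `ℤ[x_0^±1, …, x_(k-1)^±1]` as the group ring of `ℤ^k` -/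
abbrev L (k : ℕ) := AddMonoidAlgebra ℤ (Fin k → ℤ)

/-- the exponent vector of a word -/
def mon (k : ℕ) (w : Word) : Fin k → ℤ :=
  fun i => (w.map (fun p => if p.1 = (i : ℕ) then (if p.2 then (1 : ℤ) else -1) else 0)).sum

/-- the monomial `x^v` -/
noncomputable def xp {k : ℕ} (v : Fin k → ℤ) : L k := AddMonoidAlgebra.single v 1

/-- the sign `±1` -/
def sg (e : Bool) : ℤ := if e then 1 else -1

/-- the element of the free module `L_k^b` given by a term -/
noncomputable def tm (k b : ℕ) (t : Term) : Fin b → L k :=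
  fun i => if t.1 = (i : ℕ) then sg t.2.1 • xp (mon k t.2.2) else 0

/-- the element of the free module `L_k^b` given by a relation -/
noncomputable def rl (k b : ℕ) (r : Rel) : Fin b → L k := (r.map (tm k b)).sum

/-- the finitely presented module with `b` generators and relations `R` over `L_k` -/
abbrev PM (k b : ℕ) (R : List Rel) :=
  (Fin b → L k) ⧸ Submodule.span (L k) {m : Fin b → L k | ∃ r ∈ R, m = rl k b r}

/-- the change of variables `x^v ↦ x^(σ v)` -/
noncomputable def tw {k k' : ℕ} (σ : (Fin k → ℤ) ≃+ (Fin k' → ℤ)) : L k →+* L k' :=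
  AddMonoidAlgebra.mapDomainRingHom ℤ σ.toAddMonoidHom

/-- the matrix given by a list of entries -/
noncomputable def mat (k m : ℕ) (A : Ent) : Matrix (Fin m) (Fin m) (L k) :=
  fun i j => (A.map (fun e => if e.1 = (i : ℕ) ∧ e.2.1 = (j : ℕ) then sg e.2.2.1 • xp (mon k e.2.2.2) else 0)).sum

/-- the metabelian group given by a finite presentation, as in the frozen statement -/
abbrev MG (c : GCode) :=
  PresentedGroup
    ({r : FreeGroup (Fin c.1) | ∃ w ∈ c.2,
        r = FreeGroup.lift
          (fun i : ℕ => if h : i < c.1 then FreeGroup.of (⟨i, h⟩ : Fin c.1) else 1)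
          (FreeGroup.mk w)} ∪
      (derivedSeries (FreeGroup (Fin c.1)) 2 : Set (FreeGroup (Fin c.1))))

/-- the product of the variables in a list of indices; indices out of range are ignored -/
noncomputable def mo (r : ℕ) (l : List ℕ) : MvPolynomial (Fin r) ℤ :=
  (l.map (fun j => if h : j < r then MvPolynomial.X ⟨j, h⟩ else 1)).prod

/-- the polynomial given by a list of signed monomials -/
noncomputable def po (r : ℕ) (p : List (Bool × List ℕ)) : MvPolynomial (Fin r) ℤ :=
  (p.map (fun t => sg t.1 • mo r t.2)).sum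

/-- the finitely presented commutative ring -/
abbrev PR (c : RCode) :=
  MvPolynomial (Fin c.1) ℤ ⧸ Ideal.span {f : MvPolynomial (Fin c.1) ℤ | ∃ p ∈ c.2, f = po c.1 p}

/-! ## The decision problems -/

/-- isomorphism of finitely presented metabelian groups (the frozen predicate) -/
def MetIso (p : GCode × GCode) : Prop := Nonempty (MG p.1 ≃* MG p.2)

/-- isomorphism of finitely presented modules up to a change of variables in `GL_k(ℤ)` -/
def SemiIso (p : MCode × MCode) : Prop :=
  ∃ (σ : (Fin p.1.1 → ℤ) ≃+ (Fin p.2.1 → ℤ)) (φ : PM p.1.1 p.1.2.1 p.1.2.2 ≃+ PM p.2.1 p.2.2.1 p.2.2.2),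
    ∀ v m, φ (xp v • m) = xp (σ v) • φ m

/-- isomorphism of finitely presented modules over `L_k` -/
def LinIso (p : ℕ × (ℕ × List Rel) × (ℕ × List Rel)) : Prop :=
  Nonempty (PM p.1 p.2.1.1 p.2.1.2 ≃ₗ[L p.1] PM p.1 p.2.2.1 p.2.2.2)

/-- similarity of two matrices over `L_k` up to a change of variables in `GL_k(ℤ)` -/
def Sim (p : SCode) : Prop :=
  ∃ (σ : (Fin p.1 → ℤ) ≃+ (Fin p.1 → ℤ)) (U : GL (Fin p.2.1) (L p.1)),
    (U : Matrix (Fin p.2.1) (Fin p.2.1) (L p.1)) * (mat p.1 p.2.1 p.2.2.1).map (tw σ)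
      = mat p.1 p.2.1 p.2.2.2 * (U : Matrix (Fin p.2.1) (Fin p.2.1) (L p.1))

/-- isomorphism of finitely presented commutative rings -/
def RingIso (p : RCode × RCode) : Prop := Nonempty (PR p.1 ≃+* PR p.2)

/-- exponent vector with two framed coordinates in front -/
def fr {k : ℕ} (a b : ℤ) (v : Fin k → ℤ) : Fin (k + 2) → ℤ :=
  Fin.cons (α := fun _ => ℤ) a (Fin.cons (α := fun _ => ℤ) b v)

/-- exponent vector with three coordinates in front -/
def fr3 {k : ℕ} (z a b : ℤ) (v : Fin k → ℤ) : Fin (k + 3) → ℤ :=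
  Fin.cons (α := fun _ => ℤ) z (fr a b v)

/-- (hub) the modules live over `L_(k+2)`, the variables `0, 1` are framed -/
def FrIso (p : MCode × MCode) : Prop :=
  ∃ (σ : (Fin p.1.1 → ℤ) ≃+ (Fin p.2.1 → ℤ))
    (φ : PM (p.1.1 + 2) p.1.2.1 p.1.2.2 ≃+ PM (p.2.1 + 2) p.2.2.1 p.2.2.2),
    ∀ (a b : ℤ) v m, φ (xp (fr a b v) • m) = xp (fr a b (σ v)) • φ m

/-- as `SemiIso`, with signs -/
def SignedIso (p : MCode × MCode) : Prop :=
  ∃ (σ : (Fin p.1.1 → ℤ) ≃+ (Fin p.2.1 → ℤ)) (ε : (Fin p.1.1 → ℤ) → ℤ)
    (φ : PM p.1.1 p.1.2.1 p.1.2.2 ≃+ PM p.2.1 p.2.2.1 p.2.2.2),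
    (∀ v, ε v = 1 ∨ ε v = -1) ∧ (∀ v w, ε (v + w) = ε v * ε w) ∧
    ∀ v m, φ (xp v • m) = ε v • xp (σ v) • φ m

/-! ## The code maps -/

/-- shift of the letters -/
def sh (s : ℕ) (w : Word) : Word := w.map (fun p => (p.1 + s, p.2))

/-- shift of generators by `g` and letters by `s` -/
def shr (g s : ℕ) (r : Rel) : Rel := r.map (fun t => (t.1 + g, t.2.1, sh s t.2.2))

/-- the relation `x_j e_i = m e_i` -/
def eqn (j i m : ℕ) : Rel := (i, true, [(j, true)]) :: List.replicate m (i, false, [])

/-- Fox derivative: `e_i` has index `i + 2`, `x_i` is the letter `i + 2` -/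
def fox : Word → Rel
  | [] => []
  | p :: w => (if p.2 then (p.1 + 2, true, []) else (p.1 + 2, false, [(p.1 + 2, false)])) ::
      (fox w).map (fun t => (t.1, t.2.1, (p.1 + 2, p.2) :: t.2.2))

/-- R1: a metabelian presentation, with `s` further trivial variables; generators `f = 0`, `g = 1`, `e_i = i + 2` -/
def metFr (c : GCode) (s : ℕ) : MCode :=
  (c.1 + s, c.1 + 2,
    c.2.map fox
    ++ c.2.flatMap (fun r => (List.range (c.1 + 2)).map (fun i => [(i, true, sh 2 r), (i, false, [])]))
    ++ (List.range s).flatMap (fun j => (List.range (c.1 + 2)).map (fun i => eqn (c.1 + j + 2) i 1))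
    ++ (List.range c.1).map (fun i =>
        [(i + 2, true, [(0, true)]), (i + 2, false, []), (1, false, [(i + 2, true)]), (1, true, [])])
    ++ (List.range c.1).map (fun i => eqn 1 (i + 2) 1)
    ++ [eqn 0 0 1, eqn 0 1 1, [(0, true, [(1, true)]), (0, false, []), (1, false, [])], eqn 1 1 1])

/-- R2: the framed variables act trivially -/
def semiFr (c : MCode) : MCode :=
  (c.1, c.2.1,
    c.2.2.map (shr 0 2) ++ (List.range c.2.1).map (eqn 0 · 1) ++ (List.range c.2.1).map (eqn 1 · 1))

/-- R3: a matrix as a module; `p_i` has index `2 i`, `s_i` has index `2 i + 1` -/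
def simFr (k m : ℕ) (A : Ent) : MCode :=
  (k, 2 * m,
    (List.range m).map (fun i => [(2 * i, true, [(0, true)]), (2 * i, false, []), (2 * i + 1, false, [])])
    ++ (List.range m).map (fun i => eqn 0 (2 * i + 1) 1)
    ++ (List.range m).map (fun i => [(2 * i, true, [(1, true)]), (2 * i, false, [])]
        ++ A.flatMap (fun e => if e.2.1 = i then [(2 * e.1 + 1, !e.2.2.1, sh 2 e.2.2.2)] else []))
    ++ (List.range m).map (fun i => eqn 1 (2 * i + 1) 1))

/-- R4: a module with `P = S = L_k`; `p = 0`, `s = 1`, `e_i = i + 2` -/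
def linFr (k b : ℕ) (R : List Rel) : MCode :=
  (k, b + 2,
    R.map (shr 2 2)
    ++ (List.range b).map (fun i => eqn 0 (i + 2) 1) ++ (List.range b).map (fun i => eqn 1 (i + 2) 1)
    ++ [[(0, true, [(0, true)]), (0, false, []), (1, false, [])], eqn 0 1 1, eqn 1 1 1,
        [(0, true, [(1, true)]), (0, false, [])]
          ++ (List.range k).flatMap (fun j => List.replicate (j + 1) (1, false, [(j + 2, true)]))])

/-- PIN: `z = 0`, `y_1 = 1`, `y_2 = 2`, `x_j = j + 3`; `ρ = 0`, `τ = 1`, `e_i = i + 2` -/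
def pin (c : MCode) : MCode :=
  (c.1 + 3, c.2.1 + 2,
    c.2.2.map (shr 2 1)
    ++ (List.range c.2.1).map (fun i => eqn 0 (i + 2) 1)
    ++ [eqn 0 0 2, eqn 1 0 1, eqn 2 0 1, eqn 0 1 2, eqn 1 1 5, eqn 2 1 7]
    ++ (List.range c.1).map (fun j => eqn (j + 3) 1 1))

/-- the inverse word -/
def winv (w : Word) : Word := (w.map (fun p => (p.1, !p.2))).reverse

/-- commutator of words -/
def cw (u v : Word) : Word := u ++ v ++ winv u ++ winv v

/-- R6: the group `M ⋊ ℤ^k`; `E_i` has index `i`, `X_j` has index `b + j` -/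
def grp (c : MCode) : GCode :=
  (c.2.1 + c.1,
    (List.range c.1).flatMap (fun i => (List.range c.1).map
      (fun j => cw [(c.2.1 + i, true)] [(c.2.1 + j, true)]))
    ++ (List.range c.2.1).flatMap (fun i => (List.range c.2.1).map (fun j => cw [(i, true)] [(j, true)]))
    ++ (List.range c.2.1).flatMap (fun i => (List.range c.2.1).flatMap (fun j => (List.range c.1).map
      (fun l => cw [(i, true)] (cw [(j, true)] [(c.2.1 + l, true)]))))
    ++ c.2.2.map (fun r => r.flatMap
      (fun t => if t.1 < c.2.1 then sh c.2.1 t.2.2 ++ (t.1, t.2.1) :: winv (sh c.2.1 t.2.2) else [])))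

/-- R7: the ring `L_k ⋉ M`; `E_i` has index `i`, `X_j`, `Y_j` have index `b + 2 j`, `b + 2 j + 1` -/
def rng (c : MCode) : RCode :=
  (c.2.1 + 2 * c.1,
    (List.range c.1).map (fun j => [(true, [c.2.1 + 2 * j, c.2.1 + 2 * j + 1]), (false, [])])
    ++ (List.range c.2.1).flatMap (fun i => (List.range c.2.1).map (fun j => [(true, [i, j])]))
    ++ c.2.2.map (fun r => r.flatMap (fun t => if t.1 < c.2.1 then
        [(t.2.1, t.1 :: t.2.2.map (fun p => if p.2 then c.2.1 + 2 * p.1 else c.2.1 + 2 * p.1 + 1))] else [])))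

/-- R8: the upper right block `(P ⊕ 1_(b') | 0)` of the square-zero matrix, rows below `b + b'` -/
def fit (b b' : ℕ) (R : List Rel) : Ent :=
  (List.range R.length).flatMap (fun s => (R.getD s []).flatMap
    (fun t => if t.1 < b then [(t.1, b + b' + s, t.2.1, t.2.2)] else []))
  ++ (List.range b').map (fun i => (b + i, b + b' + R.length + i, true, []))

/-- R8: the pair of square-zero matrices -/
def simOf (p : MCode × MCode) : SCode :=
  if p.1.1 = p.2.1 then
    (p.1.1, (p.1.2.1 + p.2.2.1) + (p.1.2.2.length + p.2.2.1 + p.2.2.2.length + p.1.2.1),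
      fit p.1.2.1 p.2.2.1 p.1.2.2, fit p.2.2.1 p.1.2.1 p.2.2.2)
  else (0, 2, [], [(0, 1, true, [])])

/-! ## Universal derivation module -/

/-- the group ring of the abelianization -/
abbrev ZQ (G : Type*) [Group G] := MonoidAlgebra ℤ (Abelianization G)

/-- the class of `g` in the group ring of the abelianization -/
noncomputable def qq {G : Type*} [Group G] (g : G) : ZQ G := MonoidAlgebra.single (Abelianization.of g) 1

/-- the module of universal derivations: generators `d g`, relations `d (g h) = d g + g d h` -/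
abbrev AG (G : Type*) [Group G] :=
  (G →₀ ZQ G) ⧸ Submodule.span (ZQ G) {m : G →₀ ZQ G | ∃ g h : G,
    m = Finsupp.single (g * h) 1 - Finsupp.single g 1 - Finsupp.single h (qq g)}

/-- the universal derivation -/
noncomputable def dd {G : Type*} [Group G] (g : G) : AG G := Submodule.Quotient.mk (Finsupp.single g 1)

/-- the boundary `d g ↦ g - 1` -/
noncomputable def bd (G : Type*) [Group G] : AG G →ₗ[ZQ G] ZQ G :=
  Submodule.liftQ _ (Finsupp.linearCombination (ZQ G) (fun g : G => qq g - 1)) (by
    rw [Submodule.span_le]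
    rintro m ⟨g, h, rfl⟩
    simp only [SetLike.mem_coe, LinearMap.mem_ker, map_sub, Finsupp.linearCombination_single,
      smul_eq_mul]
    have : qq (g * h) = qq g * qq h := by simp [qq, MonoidAlgebra.single_mul_single]
    rw [this]; ring)

/-- isomorphism of arrows `A(G) → ℤ[G^ab]`, up to a unit -/
def ArrIso (G G' : Type*) [Group G] [Group G'] : Prop :=
  ∃ (θ : Abelianization G ≃* Abelianization G') (α : AG G ≃+ AG G') (η : (ZQ G')ˣ),
    (∀ (q : Abelianization G) (m : AG G),
      α ((MonoidAlgebra.single q (1 : ℤ) : ZQ G) • m) = (MonoidAlgebra.single (θ q) (1 : ℤ) : ZQ G') • α m) ∧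
    ∀ a : AG G, bd G' (α a) = (η : ZQ G') * MonoidAlgebra.mapDomainRingHom ℤ θ.toMonoidHom (bd G a)

/-! ## Split groups -/

/-- `v` acts on `M` by `x^v` -/
noncomputable def acM (k : ℕ) (M : Type*) [AddCommGroup M] [Module (L k) M] :
    Multiplicative (Fin k → ℤ) →* MulAut (Multiplicative M) where
  toFun v :=
    { toFun := fun m => Multiplicative.ofAdd (xp (Multiplicative.toAdd v) • Multiplicative.toAdd m)
      invFun := fun m => Multiplicative.ofAdd (xp (-Multiplicative.toAdd v) • Multiplicative.toAdd m)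
      left_inv := fun m => by
        simp [smul_smul, xp, AddMonoidAlgebra.single_mul_single, ← AddMonoidAlgebra.one_def]
      right_inv := fun m => by
        simp [smul_smul, xp, AddMonoidAlgebra.single_mul_single, ← AddMonoidAlgebra.one_def]
      map_mul' := fun m m' => by simp [smul_add] }
  map_one' := by
    ext m; simp [xp, ← AddMonoidAlgebra.one_def]
  map_mul' v w := by
    ext m; simp [xp, smul_smul, AddMonoidAlgebra.single_mul_single]

/-- the split extension `M ⋊ ℤ^k` -/
abbrev SD (k : ℕ) (M : Type*) [AddCommGroup M] [Module (L k) M] :=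
  Multiplicative M ⋊[acM k M] Multiplicative (Fin k → ℤ)

end Pool.Agent.MET
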