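import Pool.Agent.Lib_helper53.MET.Base

/-!
# MP_760942_al: further definitions (internal)
-/

set_option autoImplicit false

namespace Pool.Agent.MET

/-- `v ↦ ∏_(i < n) x_i^(v_i)` in the abelianization -/
noncomputable def qv (c : GCode) (s : ℕ) (v : Fin (c.1 + s) → ℤ) : Abelianization (MG c) :=
  ∏ i : Fin c.1, (Abelianization.of (PresentedGroup.of i : MG c)) ^ (v (Fin.castAdd s i))

/-- the linear form `∑ (i + 1) x_i` -/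
noncomputable def FF (k : ℕ) : L k := ∑ i : Fin k, ((i : ℕ) + 1) • xp (Pi.single i 1)

/-- the pinned module -/
abbrev Mp (c : MCode) := PM (c.1 + 3) (c.2.1 + 2) (pin c).2.2

/-- the monomial `z^e y_1^a y_2^b x^v` -/
noncomputable def x3 {k : ℕ} (e a b : ℤ) (v : Fin k → ℤ) : L (k + 3) := xp (fr3 e a b v)

/-- what is needed about the pinned module -/
structure PinData (c : MCode) where
  ι : PM (c.1 + 2) c.2.1 c.2.2 →+ Mp c
  thR : Mp c →+ AddMonoidAlgebra ℚ (Fin c.1 → ℤ)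
  thT : Mp c →+ ℚ
  inj : Function.Injective ι
  ι_smul : ∀ (e a b : ℤ) (v : Fin c.1 → ℤ) (m : PM (c.1 + 2) c.2.1 c.2.2),
    x3 e a b v • ι m = ι ((xp (fr a b v) : L (c.1 + 2)) • m)
  ker1 : ∀ m : Mp c, x3 1 0 0 (0 : Fin c.1 → ℤ) • m = m → ∃ m', ι m' = m
  quad : ∀ m : Mp c, x3 1 0 0 (0 : Fin c.1 → ℤ) • (x3 1 0 0 (0 : Fin c.1 → ℤ) • m)
    = 3 • (x3 1 0 0 (0 : Fin c.1 → ℤ) • m) - 2 • m
  thR_smul : ∀ (e a b : ℤ) (v : Fin c.1 → ℤ) (m : Mp c), thR (x3 e a b v • m) =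
    AddMonoidAlgebra.single v ((2 : ℚ) ^ e) * thR m
  thT_smul : ∀ (e a b : ℤ) (v : Fin c.1 → ℤ) (m : Mp c), thT (x3 e a b v • m) =
    (2 : ℚ) ^ e * 5 ^ a * 7 ^ b * thT m
  joint : ∀ m : Mp c, x3 1 0 0 (0 : Fin c.1 → ℤ) • m = 2 • m → thR m = 0 → thT m = 0 → m = 0
  thR_gen : thR (gen 0) = 1
  thR_gen' : thR (gen 1) = 0
  thT_gen : thT (gen 1) = 1
  thT_gen' : thT (gen 0) = 0
  rho_z : x3 1 0 0 (0 : Fin c.1 → ℤ) • (gen 0 : Mp c) = 2 • gen 0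
  rho_y : ∀ a b : ℤ, x3 0 a b (0 : Fin c.1 → ℤ) • (gen 0 : Mp c) = gen 0
  tau_z : x3 1 0 0 (0 : Fin c.1 → ℤ) • (gen 1 : Mp c) = 2 • gen 1
  tau_y : x3 0 1 0 (0 : Fin c.1 → ℤ) • (gen 1 : Mp c) = 5 • gen 1
  tau_y' : x3 0 0 1 (0 : Fin c.1 → ℤ) • (gen 1 : Mp c) = 7 • gen 1
  tau_x : ∀ v : Fin c.1 → ℤ, x3 0 0 0 v • (gen 1 : Mp c) = gen 1

/-- `S` is the trivial extension of `L_k` by `M` -/
structure RingData (k : ℕ) (M : Type) [AddCommGroup M] [Module (L k) M] (S : Type) [CommRing S] where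
  π : S →+* L k
  κ : L k →+* S
  j : M →+ S
  πκ : ∀ a, π (κ a) = a
  πj : ∀ m, π (j m) = 0
  inj : Function.Injective j
  ker : ∀ s, π s = 0 → ∃ m, j m = s
  sq : ∀ m m', j m * j m' = 0
  smul : ∀ (a : L k) (m : M), κ a * j m = j (a • m)

end Pool.Agent.MET
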