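import Pool.Agent.Lib_helper53.MET.Defs2

/-!
# MP_760942_al: the rings `L_k ⋉ M`
-/

set_option autoImplicit false

namespace Pool.Agent.MET

/-- isomorphism of the rings `L_k ⋉ M`, `M` a finitely presented `L_k`-module -/
def SplitRingIso (p : MCode × MCode) : Prop := RingIso (rng p.1, rng p.2)

/-- signs as a further variable `s` acting as `-1`: framed `y_1 = 0`, `y_2 = 1`, then `s = 2`, `x_j = j + 3`;
generators `w = 0` (`W = ℤ[1/2][ℤ^k]`, `y_1 = 2`), `e_i = i + 1` -/
def sgFr (c : MCode) : MCode :=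
  (c.1 + 1, c.2.1 + 1,
    c.2.2.map (shr 1 3)
    ++ (List.range c.2.1).map (fun i => [(i + 1, true, [(2, true)]), (i + 1, true, [])])
    ++ (List.range c.2.1).map (fun i => eqn 0 (i + 1) 1)
    ++ (List.range c.2.1).map (fun i => eqn 1 (i + 1) 1)
    ++ [[(0, true, [(2, true)]), (0, true, [])], eqn 0 0 2, eqn 1 0 1])

end Pool.Agent.MET
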