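import Pool.Agent.Lib_helper66.MET.R1e
import Pool.Agent.Lib_helper24.MET.ARR34
import Pool.Agent.Lib_helper12.MET.R6a
import Pool.Agent.Lib_helper12.MET.R7a
import Pool.Agent.Lib_helper73.MET.R2
import Pool.Agent.Lib_helper73.MET.R7b
import Pool.Agent.Lib_helper73.MET.R7c
import Pool.Agent.Lib_helper73.MET.PIN1
import Pool.Agent.Lib_helper73.MET.R9
import Pool.Agent.Lib_helper96.MET.R6c
import Pool.Agent.Lib_helper48.MET.PIN0
import Pool.Agent.Lib_helper66.MET.R6b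
import Pool.Agent.Lib_helper81.MET.R3
import Pool.Agent.Lib_helper81.MET.R4
import Pool.Agent.Lib_helper34.MET.R8a
import Pool.Agent.Lib_helper34.MET.R8b
import Pool.Agent.Lib_helper34.MET.R8c
import Pool.Agent.Lib_helper53.MET.Comp

set_option autoImplicit false

namespace Pool.Agent.MET

/-- R1f -/
theorem mg_metab (c : GCode) : derivedSeries (MG c) 2 = ⊥ := r6a_mg_met c

/-- PIN2 -/
theorem pin2 (p : MCode × MCode) (h : SignedIso (pin p.1, pin p.2)) : FrIso p := pin2_of pin0 p h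

/-- R6c -/
theorem r6c (c : MCode) (v : Fin (c.1 + 3) → ℤ) (h : ∀ (w : Fin (c.1 + 3) → ℤ)
    (m : PM (c.1 + 3) (c.2.1 + 2) (pin c).2.2), xp v • (xp w • m - m) = xp w • m - m) : v = 0 := r6c_of pin0 c v h

/-- MetIso <= FrIso -/
theorem met_fr (p : GCode × GCode) : MetIso p ↔ FrIso (metFr p.1 p.2.1, metFr p.2 p.1.1) := by
  rw [r1e]
  exact ⟨fun ⟨e⟩ => arr_mp e, fun h => arr_mpr (mg_metab p.1) (mg_metab p.2) h⟩

/-- R5 -/
theorem fr_semi (p : MCode × MCode) : FrIso p ↔ SemiIso (pin p.1, pin p.2) := by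
  refine ⟨pin1 p, fun h => pin2 p ?_⟩
  obtain ⟨σ, φ, h⟩ := h
  exact ⟨σ, fun _ => 1, φ, fun _ => Or.inl rfl, fun _ _ => by norm_num, fun v m => by rw [one_smul]; exact h v m⟩

/-- R6 -/
theorem fr_met (p : MCode × MCode) : FrIso p ↔ MetIso (grp (pin p.1), grp (pin p.2)) := by
  rw [fr_semi]
  obtain ⟨e1⟩ := r6a (pin p.1)
  obtain ⟨e2⟩ := r6a (pin p.2)
  have h := r6b (k := p.1.1 + 3) (k' := p.2.1 + 3) (M := Mp p.1) (M' := Mp p.2) (r6c p.1) (r6c p.2)
  constructor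
  · intro hs
    obtain ⟨e⟩ := h.2 hs
    exact ⟨e1.trans (e.trans e2.symm)⟩
  · rintro ⟨e⟩
    exact h.1 ⟨e1.symm.trans (e.trans e2)⟩

/-- R7 -/
theorem fr_ring (p : MCode × MCode) : FrIso p ↔ RingIso (rng (pin p.1), rng (pin p.2)) := by
  obtain ⟨D⟩ := r7a (pin p.1)
  obtain ⟨D'⟩ := r7a (pin p.2)
  constructor
  · intro h
    obtain ⟨σ, φ, h⟩ := pin1 p h
    exact r7c D D' σ φ h
  · rintro ⟨e⟩
    exact pin2 p (r7b D D' e)

/-- `(z - 1)(z - 2)` kills the pinned module -/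
theorem pin_kill (c : MCode) : ∃ t : L (c.1 + 3), t ≠ 0 ∧ ∀ m : Mp c, t • m = 0 := by
  obtain ⟨D⟩ := pin0 c
  refine ⟨x3 1 0 0 (0 : Fin c.1 → ℤ) * x3 1 0 0 (0 : Fin c.1 → ℤ) - 3 • x3 1 0 0 (0 : Fin c.1 → ℤ) + 2 • 1, ?_, ?_⟩
  · intro h
    have hz : (fr3 1 0 0 (0 : Fin c.1 → ℤ)) ≠ 0 := fun hh => by
      have := congrFun hh 0
      simp [fr3] at this
    have hz2 : (fr3 1 0 0 (0 : Fin c.1 → ℤ)) + (fr3 1 0 0 (0 : Fin c.1 → ℤ)) ≠ 0 := fun hh => by
      have := congrFun hh 0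
      simp [fr3] at this
    have h1 := congrArg (fun a : L (c.1 + 3) => a.coeff 0) h
    rw [x3, ← xp_add, xp, xp, AddMonoidAlgebra.one_def] at h1
    simp [AddMonoidAlgebra.coeff_single, hz, hz2] at h1
  · intro m
    have := D.quad m
    rw [add_smul, sub_smul, mul_smul, this, smul_assoc, smul_assoc, one_smul]
    abel

/-- R8 -/
theorem fr_sim (p : MCode × MCode) : FrIso p ↔ Sim (simOf (pin p.1, pin p.2)) := by
  constructor
  · intro h
    have hs := pin1 p h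
    have hk : (pin p.1).1 = (pin p.2).1 := by
      obtain ⟨σ, -⟩ := hs
      exact zk_inj σ
    exact r8a _ hk hs
  · intro h
    obtain ⟨t, ht, hk⟩ := pin_kill p.1
    obtain ⟨t', ht', hk'⟩ := pin_kill p.2
    exact (fr_semi p).2 (r8b (pin p.1, pin p.2) t ht hk t' ht' hk' h)

/-! ## The maps and their computability -/

/-- `MetIso ≤ FrIso` -/
def g1 (p : GCode × GCode) : MCode × MCode := (metFr p.1 p.2.1, metFr p.2 p.1.1)

theorem c_g1 : Primrec g1 :=
  (c_metFr.comp (Primrec.fst.pair (Primrec.fst.comp Primrec.snd))).pair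
    (c_metFr.comp (Primrec.snd.pair (Primrec.fst.comp Primrec.fst)))

/-- pinning a pair -/
def pp (p : MCode × MCode) : MCode × MCode := (pin p.1, pin p.2)

theorem c_pp : Primrec pp := (c_pin.comp Primrec.fst).pair (c_pin.comp Primrec.snd)

/-- the pair of groups of a pair of modules -/
def gp (p : MCode × MCode) : GCode × GCode := (grp p.1, grp p.2)

theorem c_gp : Primrec gp := (c_grp.comp Primrec.fst).pair (c_grp.comp Primrec.snd)

/-- the pair of modules of a pair of matrices -/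
def sp (p : SCode) : MCode × MCode := (simFr p.1 p.2.1 p.2.2.1, simFr p.1 p.2.1 p.2.2.2)

theorem c_sp : Primrec sp :=
  (c_simFr.comp (Primrec.fst.pair ((Primrec.fst.comp Primrec.snd).pair
    (Primrec.fst.comp (Primrec.snd.comp Primrec.snd))))).pair
  (c_simFr.comp (Primrec.fst.pair ((Primrec.fst.comp Primrec.snd).pair
    (Primrec.snd.comp (Primrec.snd.comp Primrec.snd)))))

/-- `MetIso ≤ Sim` -/
def f1 (p : GCode × GCode) : SCode := simOf (pp (g1 p))

theorem c_f1 : Primrec f1 := c_simOf.comp (c_pp.comp c_g1)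

theorem f1_spec (p : GCode × GCode) : MetIso p ↔ Sim (f1 p) := (met_fr p).trans (fr_sim (g1 p))

theorem met_le_sim : MetIso ≤₀ Sim := ⟨f1, c_f1.to_comp, f1_spec⟩

/-- `Sim ≤ MetIso` -/
def f2 (p : SCode) : GCode × GCode := gp (pp (sp p))

theorem c_f2 : Primrec f2 := c_gp.comp (c_pp.comp c_sp)

theorem f2_spec (p : SCode) : Sim p ↔ MetIso (f2 p) := (r3 p).trans (fr_met (sp p))

theorem sim_le_met : Sim ≤₀ MetIso := ⟨f2, c_f2.to_comp, f2_spec⟩

theorem met_le_semi : MetIso ≤₀ SemiIso :=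
  ⟨fun p => pp (g1 p), (c_pp.comp c_g1).to_comp, fun p => (met_fr p).trans (fr_semi (g1 p))⟩

theorem semi_le_met : SemiIso ≤₀ MetIso :=
  ⟨fun p => gp (pp (semiFr p.1, semiFr p.2)),
    (c_gp.comp (c_pp.comp ((c_semiFr.comp Primrec.fst).pair (c_semiFr.comp Primrec.snd)))).to_comp,
    fun p => (r2 p).trans (fr_met (semiFr p.1, semiFr p.2))⟩

theorem met_le_ring : MetIso ≤₀ RingIso :=
  ⟨fun p => (rng (pp (g1 p)).1, rng (pp (g1 p)).2),
    ((c_rng.comp (Primrec.fst.comp (c_pp.comp c_g1))).pair (c_rng.comp (Primrec.snd.comp (c_pp.comp c_g1)))).to_comp,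
    fun p => (met_fr p).trans (fr_ring (g1 p))⟩

theorem lin_le_met : LinIso ≤₀ MetIso :=
  ⟨fun p => gp (pp (linFr p.1 p.2.1.1 p.2.1.2, linFr p.1 p.2.2.1 p.2.2.2)),
    (c_gp.comp (c_pp.comp (
      (c_linFr.comp (Primrec.fst.pair (Primrec.fst.comp Primrec.snd))).pair
      (c_linFr.comp (Primrec.fst.pair (Primrec.snd.comp Primrec.snd)))))).to_comp,
    fun p => (r4 p).trans (fr_met (linFr p.1 p.2.1.1 p.2.1.2, linFr p.1 p.2.2.1 p.2.2.2))⟩

theorem sq_zero : ∃ f : GCode × GCode → SCode, Computable f ∧ ∀ p,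
    (mat (f p).1 (f p).2.1 (f p).2.2.1 * mat (f p).1 (f p).2.1 (f p).2.2.1 = 0 ∧
      mat (f p).1 (f p).2.1 (f p).2.2.2 * mat (f p).1 (f p).2.1 (f p).2.2.2 = 0) ∧
    (MetIso p ↔ Sim (f p)) :=
  ⟨f1, c_f1.to_comp, fun p => ⟨r8c (pp (g1 p)), f1_spec p⟩⟩

/-- `G` is torsion free and a split extension of an abelian group by a free abelian group of finite rank -/
def TorsionFreeSplit (G : Type) [Group G] : Prop :=
  (∀ (x : G) (n : ℕ), 0 < n → x ^ n = 1 → x = 1) ∧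
  ∃ (M : Type) (_ : CommGroup M) (K : ℕ) (φ : Multiplicative (Fin K → ℤ) →* MulAut M),
    Nonempty (G ≃* M ⋊[φ] Multiplicative (Fin K → ℤ))

theorem tf_split (k m : ℕ) (A : Ent) : TorsionFreeSplit (MG (grp (pin (simFr k m A)))) := by
  refine ⟨fun x n hn hx => r9 k m A x n hn hx, ?_⟩
  have h := r6a (pin (simFr k m A))
  exact ⟨_, inferInstance, _, _, h⟩

theorem split : ∃ g : GCode × GCode → GCode × GCode, Computable g ∧ ∀ p,
    TorsionFreeSplit (MG (g p).1) ∧ TorsionFreeSplit (MG (g p).2) ∧ (MetIso p ↔ MetIso (g p)) :=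
  ⟨fun p => f2 (f1 p), (c_f2.comp c_f1).to_comp, fun p =>
    ⟨tf_split _ _ _, tf_split _ _ _, (f1_spec p).trans (f2_spec (f1 p))⟩⟩

end Pool.Agent.MET

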