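import Mathlib

/-!
# MP_760942_al: the decision problems, as used in the statements

All instances are lists of numbers (`ℕ`, `Bool`, `List`, products), so that `Computable` makes sense.
Words are lists of letters `(index, sign)`. Indices out of range are ignored everywhere.
-/

set_option autoImplicit false

namespace Pool.Agent.MET.Stmt

/-! ## Groups -/

/-- a finite metabelian presentation: `n` generators, a list of words -/
abbrev GroupCode := ℕ × List (List (ℕ × Bool))

/-- the relators of a finite metabelian presentation and the second derived subgroup of `F_n` (as in `S01939`) -/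
def relators (n : ℕ) (R : List (List (ℕ × Bool))) : Set (FreeGroup (Fin n)) :=
  {r : FreeGroup (Fin n) | ∃ w ∈ R,
      r = FreeGroup.lift
        (fun i : ℕ => if h : i < n then FreeGroup.of (⟨i, h⟩ : Fin n) else 1)
        (FreeGroup.mk w)} ∪
    (derivedSeries (FreeGroup (Fin n)) 2 : Set (FreeGroup (Fin n)))

/-- the isomorphism problem for finitely generated metabelian groups (the predicate of the frozen statement) -/
def MetabelianIso (p : GroupCode × GroupCode) : Prop :=
  Nonempty (PresentedGroup (relators p.1.1 p.1.2) ≃* PresentedGroup (relators p.2.1 p.2.2))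

/-- `G` is torsion free and a semidirect product of an abelian group and some `ℤ^K` -/
def TorsionFreeSplit (G : Type) [Group G] : Prop :=
  (∀ (x : G) (n : ℕ), 0 < n → x ^ n = 1 → x = 1) ∧
  ∃ (M : Type) (_ : CommGroup M) (K : ℕ) (φ : Multiplicative (Fin K → ℤ) →* MulAut M),
    Nonempty (G ≃* M ⋊[φ] Multiplicative (Fin K → ℤ))

/-- the group of a presentation is `TorsionFreeSplit` -/
def SplitPres (c : GroupCode) : Prop := TorsionFreeSplit (PresentedGroup (relators c.1 c.2))

/-! ## Laurent polynomial rings -/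

/-- `L_k = ℤ[x_0^±1, …, x_(k-1)^±1]`, the group ring of `ℤ^k` -/
abbrev Lau (k : ℕ) := AddMonoidAlgebra ℤ (Fin k → ℤ)

/-- the monomial `x^v` -/
noncomputable def mono {k : ℕ} (v : Fin k → ℤ) : Lau k := AddMonoidAlgebra.single v 1

/-- the exponent vector of a word -/
def expo (k : ℕ) (w : List (ℕ × Bool)) : Fin k → ℤ :=
  fun i => (w.map (fun p => if p.1 = (i : ℕ) then (if p.2 then (1 : ℤ) else -1) else 0)).sum

/-- the sign `±1` -/
def sign (e : Bool) : ℤ := if e then 1 else -1

/-- the change of variables `x^v ↦ x^(σ v)`, `σ ∈ Aut(ℤ^k) = GL_k(ℤ)` -/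
noncomputable def change {k : ℕ} (σ : (Fin k → ℤ) ≃+ (Fin k → ℤ)) : Lau k ≃+* Lau k :=
  AddMonoidAlgebra.mapDomainRingEquiv ℤ σ

/-! ## Modules -/

/-- a list of terms `± x^w e_i`, given as `(i, sign, w)` -/
abbrev Rel := List (ℕ × Bool × List (ℕ × Bool))

/-- `k` variables, `b` generators, a list of relations -/
abbrev ModCode := ℕ × ℕ × List Rel

/-- the element of the free module `L_k^b` given by a term -/
noncomputable def term (k b : ℕ) (t : ℕ × Bool × List (ℕ × Bool)) : Fin b → Lau k :=
  fun i => if t.1 = (i : ℕ) then sign t.2.1 • mono (expo k t.2.2) else 0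

/-- the submodule of `L_k^b` generated by the relations (a relation is the sum of its terms) -/
noncomputable def relSub (k b : ℕ) (R : List Rel) : Submodule (Lau k) (Fin b → Lau k) :=
  Submodule.span (Lau k) {m : Fin b → Lau k | ∃ r ∈ R, m = (r.map (term k b)).sum}

/-- isomorphism of an `L_k`-module `M` and an `L_k'`-module `M'` up to a change of variables -/
def SemiLinear (k k' : ℕ) (M M' : Type) [AddCommGroup M] [Module (Lau k) M] [AddCommGroup M']
    [Module (Lau k') M'] : Prop :=
  ∃ (σ : (Fin k → ℤ) ≃+ (Fin k' → ℤ)) (φ : M ≃+ M'),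
    ∀ (v : Fin k → ℤ) (m : M), φ ((mono v : Lau k) • m) = (mono (σ v) : Lau k') • φ m

/-- isomorphism of `L_k^b / R` and `L_k'^b' / R'` up to a change of variables -/
def Semi (k b : ℕ) (R : List Rel) (k' b' : ℕ) (R' : List Rel) : Prop :=
  SemiLinear k k' ((Fin b → Lau k) ⧸ relSub k b R) ((Fin b' → Lau k') ⧸ relSub k' b' R')

/-- are two finitely presented modules over Laurent rings isomorphic up to a change of variables -/
def SemiIso (p : ModCode × ModCode) : Prop := Semi p.1.1 p.1.2.1 p.1.2.2 p.2.1 p.2.2.1 p.2.2.2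

/-- isomorphism of `L_k^b / R` and `L_k^b' / R'` over `L_k` -/
def Lin (k b : ℕ) (R : List Rel) (b' : ℕ) (R' : List Rel) : Prop :=
  Nonempty (((Fin b → Lau k) ⧸ relSub k b R) ≃ₗ[Lau k] ((Fin b' → Lau k) ⧸ relSub k b' R'))

/-- are two finitely presented modules over `L_k` isomorphic -/
def LinIso (p : ℕ × (ℕ × List Rel) × (ℕ × List Rel)) : Prop := Lin p.1 p.2.1.1 p.2.1.2 p.2.2.1 p.2.2.2

/-! ## Matrices -/

/-- a list of entries `± x^w` at `(row, column)`; entries at the same place are added -/
abbrev Entries := List (ℕ × ℕ × Bool × List (ℕ × Bool))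

/-- `k` variables, size `m`, two `m × m` matrices -/
abbrev MatCode := ℕ × ℕ × Entries × Entries

/-- the matrix given by a list of entries -/
noncomputable def matrix (k m : ℕ) (A : Entries) : Matrix (Fin m) (Fin m) (Lau k) :=
  fun i j => (A.map (fun e => if e.1 = (i : ℕ) ∧ e.2.1 = (j : ℕ) then
    sign e.2.2.1 • (mono (expo k e.2.2.2) : Lau k) else 0)).sum

/-- `U A^σ = B U` for some `σ ∈ GL_k(ℤ)` and `U ∈ GL_m(L_k)` -/
def Sim (k m : ℕ) (A B : Entries) : Prop :=
  ∃ (σ : (Fin k → ℤ) ≃+ (Fin k → ℤ)) (U : GL (Fin m) (Lau k)),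
    U.val * (matrix k m A).map (change σ) = matrix k m B * U.val

/-- similarity of two matrices over `L_k` up to a change of variables -/
def Similar (p : MatCode) : Prop := Sim p.1 p.2.1 p.2.2.1 p.2.2.2

/-- `A² = 0` -/
def SqZero (k m : ℕ) (A : Entries) : Prop := matrix k m A * matrix k m A = 0

/-- both matrices have square zero -/
def SquareZero (p : MatCode) : Prop := SqZero p.1 p.2.1 p.2.2.1 ∧ SqZero p.1 p.2.1 p.2.2.2

/-- `b = U a^σ U⁻¹` for some `σ ∈ GL_k(ℤ)` and `U ∈ GL_m(L_k)`: the elements `a` and `b` of `GL_m(L_k)` are conjugate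
in `GL_m(L_k) ⋊ GL_k(ℤ)` -/
def ConjGL {k m : ℕ} (a b : GL (Fin m) (Lau k)) : Prop :=
  ∃ (σ : (Fin k → ℤ) ≃+ (Fin k → ℤ)) (U : GL (Fin m) (Lau k)),
    b = U * Units.map (change σ).toRingHom.mapMatrix.toMonoidHom a * U⁻¹

/-- the matrices `1 + N` and `1 + N'` given by `N`, `N'` are invertible and conjugate in `GL_m(L_k) ⋊ GL_k(ℤ)` -/
def UniConj (k m : ℕ) (N N' : Entries) : Prop :=
  ∃ a b : GL (Fin m) (Lau k), a.val = 1 + matrix k m N ∧ b.val = 1 + matrix k m N' ∧ ConjGL a b

/-- conjugacy of `1 + N` and `1 + N'` in `GL_m(L_k) ⋊ GL_k(ℤ)` -/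
def Conjugate (p : MatCode) : Prop := UniConj p.1 p.2.1 p.2.2.1 p.2.2.2

/-! ## Rings -/

/-- number of variables, relations: lists of signed monomials, a monomial is a list of variable indices -/
abbrev RingCode := ℕ × List (List (Bool × List ℕ))

/-- the product of the variables in a list of indices -/
noncomputable def monomial (r : ℕ) (l : List ℕ) : MvPolynomial (Fin r) ℤ :=
  (l.map (fun j => if h : j < r then MvPolynomial.X ⟨j, h⟩ else 1)).prod

/-- the ideal of the relations -/
noncomputable def relIdeal (r : ℕ) (P : List (List (Bool × List ℕ))) : Ideal (MvPolynomial (Fin r) ℤ) :=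
  Ideal.span {f : MvPolynomial (Fin r) ℤ | ∃ p ∈ P, f = (p.map (fun t => sign t.1 • monomial r t.2)).sum}

/-- isomorphism of two finitely presented commutative rings -/
def RingI (r : ℕ) (P : List (List (Bool × List ℕ))) (r' : ℕ) (P' : List (List (Bool × List ℕ))) : Prop :=
  Nonempty ((MvPolynomial (Fin r) ℤ ⧸ relIdeal r P) ≃+* (MvPolynomial (Fin r') ℤ ⧸ relIdeal r' P'))

/-- are two finitely presented commutative rings isomorphic -/
def RingIso (p : RingCode × RingCode) : Prop := RingI p.1.1 p.1.2 p.2.1 p.2.2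

/-- the presentation of the ring `L_k ⋉ M`, `M` a finitely presented module: variables `e_i` (index `i`), `x_j`
(index `b + 2 j`), `y_j` (index `b + 2 j + 1`), relations `x_j y_j = 1`, `e_i e_j = 0`, and those of `M` -/
def splitRing (c : ModCode) : RingCode :=
  (c.2.1 + 2 * c.1,
    (List.range c.1).map (fun j => [(true, [c.2.1 + 2 * j, c.2.1 + 2 * j + 1]), (false, [])])
    ++ (List.range c.2.1).flatMap (fun i => (List.range c.2.1).map (fun j => [(true, [i, j])]))
    ++ c.2.2.map (fun r => r.flatMap (fun t => if t.1 < c.2.1 then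
        [(t.2.1, t.1 :: t.2.2.map (fun p => if p.2 then c.2.1 + 2 * p.1 else c.2.1 + 2 * p.1 + 1))] else [])))

/-- are the rings `L_k ⋉ M` and `L_k' ⋉ M'` isomorphic -/
def SplitRingIso (p : ModCode × ModCode) : Prop := RingIso (splitRing p.1, splitRing p.2)

end Pool.Agent.MET.Stmt
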